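import Pool.Agent.Helper90.UN.Goals

/-!
PROJECT UN (MP_d3128a_ag), packet EMO: the top rows of the triangle.
-/

set_option autoImplicit false

noncomputable section

namespace Pool.Agent.Helper27.UN.EMO

open Pool.Agent.Helper97.Nag Pool.Agent.Helper90.UN

/-- facts on `r = √n` -/
lemma rfacts {n : ℕ} (hn : 10 ≤ n) (hsq : ¬ IsSquare n) :
    √(n : ℝ) ^ 2 = n ∧ 3 < √(n : ℝ) ∧ Irrational (3 * √(n : ℝ) - 9) := by
  have h0 : (0 : ℝ) ≤ n := Nat.cast_nonneg n
  have h1 : √(n : ℝ) ^ 2 = n := Real.sq_sqrt h0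
  have h10 : (10 : ℝ) ≤ n := by exact_mod_cast hn
  have h2 : 3 < √(n : ℝ) := by
    apply Real.lt_sqrt_of_sq_lt
    linarith
  refine ⟨h1, h2, ?_⟩
  have h3 : Irrational √(n : ℝ) := (irrational_sqrt_natCast_iff).2 hsq
  have h4 : Irrational (3 * √(n : ℝ)) := by
    have := h3.natCast_mul (m := 3) (by norm_num)
    simpa using this
  have h5 := h4.sub_natCast 9
  simpa using h5

/-- from squares to the comparison with `r` -/
lemma lt_of_sq {n a b : ℕ} (h : a ^ 2 < n * b ^ 2) : (a : ℝ) < √(n : ℝ) * b := by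
  have h0 : (0 : ℝ) ≤ n := Nat.cast_nonneg n
  have h1 : √(n : ℝ) ^ 2 = n := Real.sq_sqrt h0
  have hR : (a : ℝ) ^ 2 < n * (b : ℝ) ^ 2 := by exact_mod_cast h
  have hs : (0 : ℝ) ≤ √(n : ℝ) * b := by positivity
  apply lt_of_pow_lt_pow_left₀ 2 hs
  rw [mul_pow, h1]
  exact hR

lemma gt_of_sq {n a b : ℕ} (h : n * b ^ 2 < a ^ 2) : √(n : ℝ) * b < a := by
  have h0 : (0 : ℝ) ≤ n := Nat.cast_nonneg n
  have h1 : √(n : ℝ) ^ 2 = n := Real.sq_sqrt h0
  have hR : n * (b : ℝ) ^ 2 < (a : ℝ) ^ 2 := by exact_mod_cast h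
  have hs : (0 : ℝ) ≤ (a : ℝ) := Nat.cast_nonneg a
  apply lt_of_pow_lt_pow_left₀ 2 hs
  rw [mul_pow, h1]
  exact hR

/-- the index set -/
def ix (r : ℝ) (m d : ℕ) : Finset ℕ :=
  (Finset.range (d + 1)).filter fun i : ℕ => 3 * r * (m : ℝ) < 9 * ((d : ℝ) / 3 - i)

/-- the formula for the top row -/
lemma top (h : S_ROW) {n m d : ℕ} {S : Finset (ℤ × ℤ)} (hn : 10 ≤ n) (hsq : ¬ IsSquare n)
    (hm : 1 ≤ m) (hd : (d + 3) ^ 2 < n * (m + 1) ^ 2) (hS : IsT d (3 * √(n : ℝ) - 9) S) :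
    ((lnv S (m + 1)).card : ℤ) = ∑ i ∈ ix √(n : ℝ) m d,
      (⌊3 * √(n : ℝ) * ((d : ℝ) / 3 - m - i)⌋ - ⌊(3 * √(n : ℝ) - 9) * ((d : ℝ) / 3 - i)⌋) := by
  obtain ⟨h1, h2, h3⟩ := rfacts hn hsq
  have hlt := lt_of_sq hd
  push_cast at hlt
  have := h d (m + 1) (3 * √(n : ℝ) - 9) S (by linarith) h3 hS (by omega)
  rw [this]
  have hne : ¬ (m + 1 = 1 ∧ 3 ∣ d) := by omega
  rw [if_neg hne, zero_add]
  have hix : (Finset.range (d + 1)).filter
        (fun i : ℕ => (3 * √(n : ℝ) - 9 + 9) * (((m + 1 : ℕ) : ℝ) - 1) < 9 * ((d : ℝ) / 3 - i)) =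
      ix √(n : ℝ) m d := by
    unfold ix
    apply Finset.filter_congr
    intro i _
    have e : (3 * √(n : ℝ) - 9 + 9) * (((m + 1 : ℕ) : ℝ) - 1) = 3 * √(n : ℝ) * m := by
      push_cast; ring
    rw [e]
  rw [hix]
  apply Finset.sum_congr rfl
  intro i _
  have e1 : (3 * √(n : ℝ) - 9 + 9) * ((d : ℝ) / 3 - ((m + 1 : ℕ) : ℝ) + 1 - i) =
      3 * √(n : ℝ) * ((d : ℝ) / 3 - m - i) := by
    push_cast; ring
  have e2 : max ((3 * √(n : ℝ) - 9 + 9) * ((d : ℝ) / 3 - ((m + 1 : ℕ) : ℝ) - i))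
      ((3 * √(n : ℝ) - 9) * ((d : ℝ) / 3 - i)) = (3 * √(n : ℝ) - 9) * ((d : ℝ) / 3 - i) := by
    apply max_eq_right
    have hi : (0 : ℝ) ≤ i := Nat.cast_nonneg i
    push_cast
    nlinarith
  rw [e1, e2]

/-- the difference of the ends -/
lemma diff_eq (r : ℝ) (m d i : ℕ) :
    3 * r * ((d : ℝ) / 3 - m - i) - (3 * r - 9) * ((d : ℝ) / 3 - i) =
      9 * ((d : ℝ) / 3 - i) - 3 * r * m := by ring

theorem t (h : S_ROW) : S_EMO := by
  intro n m d S hn hsq hm hd1 hd2 hS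
  obtain ⟨h1, h2, h3⟩ := rfacts hn hsq
  have hlt := lt_of_sq hd2
  push_cast at hlt
  have hgt := gt_of_sq hd1
  refine ⟨?_, ?_, ?_⟩
  · -- no row has `m + 2` points
    have := h d (m + 2) (3 * √(n : ℝ) - 9) S (by linarith) h3 hS (by omega)
    have hne : ¬ (m + 2 = 1 ∧ 3 ∣ d) := by omega
    rw [if_neg hne, zero_add, Finset.sum_eq_zero] at this
    · exact_mod_cast this
    · intro i hi
      exfalso
      rw [Finset.mem_filter] at hi
      have hi2 := hi.2
      have hi0 : (0 : ℝ) ≤ i := Nat.cast_nonneg i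
      push_cast at hi2
      nlinarith
  · -- fewer than `n` rows have `m + 1` points
    have key := top h hn hsq hm hd2 hS
    set z : ℝ := (d : ℝ) / 3 - √(n : ℝ) / 3 * m with hz
    have hz0 : 0 < z := by rw [hz]; linarith
    have hz1 : z < √(n : ℝ) / 3 - 1 := by rw [hz]; linarith
    have hsub : ix √(n : ℝ) m d ⊆ Finset.range ⌈z⌉₊ := by
      intro i hi
      unfold ix at hi
      rw [Finset.mem_filter] at hi
      rw [Finset.mem_range, Nat.lt_ceil, hz]
      linarith [hi.2]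
    have hcard : ((ix √(n : ℝ) m d).card : ℝ) < z + 1 := by
      have c1 := Finset.card_le_card hsub
      rw [Finset.card_range] at c1
      have c2 := Nat.ceil_lt_add_one hz0.le
      have c3 : ((ix √(n : ℝ) m d).card : ℝ) ≤ (⌈z⌉₊ : ℝ) := by exact_mod_cast c1
      linarith
    have hN : ((lnv S (m + 1)).card : ℝ) ≤ (ix √(n : ℝ) m d).card * (9 * z + 1) := by
      have e : ((lnv S (m + 1)).card : ℝ) = ((((lnv S (m + 1)).card : ℕ) : ℤ) : ℝ) := by
        push_cast; rfl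
      rw [e, key]
      push_cast
      rw [← nsmul_eq_mul]
      apply Finset.sum_le_card_nsmul
      intro i _
      have f1 := Int.floor_le (3 * √(n : ℝ) * ((d : ℝ) / 3 - m - i))
      have f2 := Int.lt_floor_add_one ((3 * √(n : ℝ) - 9) * ((d : ℝ) / 3 - i))
      have f3 := diff_eq √(n : ℝ) m d i
      have hi0 : (0 : ℝ) ≤ i := Nat.cast_nonneg i
      rw [hz]
      linarith
    have hfin : ((lnv S (m + 1)).card : ℝ) < n := by
      have g1 : ((ix √(n : ℝ) m d).card : ℝ) * (9 * z + 1) ≤ (z + 1) * (9 * z + 1) := by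
        apply mul_le_mul_of_nonneg_right hcard.le
        linarith
      have g2 : (z + 1) * (9 * z + 1) < n := by
        nlinarith
      linarith
    exact_mod_cast hfin
  · -- monotone
    intro d' S' hdd hd' hS'
    rcases Nat.eq_or_lt_of_le hdd with heq | hltd
    · subst heq
      have : S = S' := by
        ext q
        rw [hS q, hS' q]
      rw [this]
    · have key := top h hn hsq hm hd2 hS
      have key' := top h hn hsq hm hd' hS'
      have hc : ((lnv S (m + 1)).card : ℤ) ≤ ((lnv S' (m + 1)).card : ℤ) := by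
        rw [key, key']
        have hdr : (d : ℝ) + 1 ≤ d' := by exact_mod_cast hltd
        have hsub : ix √(n : ℝ) m d ⊆ ix √(n : ℝ) m d' := by
          intro i hi
          unfold ix at hi ⊢
          rw [Finset.mem_filter, Finset.mem_range] at hi ⊢
          refine ⟨by omega, ?_⟩
          linarith [hi.2]
        refine le_trans (Finset.sum_le_sum ?_) (Finset.sum_le_sum_of_subset_of_nonneg hsub ?_)
        · intro i _
          have f1 := Int.floor_le (3 * √(n : ℝ) * ((d : ℝ) / 3 - m - i))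
          have f2 := Int.lt_floor_add_one ((3 * √(n : ℝ) - 9) * ((d : ℝ) / 3 - i))
          have f3 := diff_eq √(n : ℝ) m d i
          have f1' := Int.lt_floor_add_one (3 * √(n : ℝ) * ((d' : ℝ) / 3 - m - i))
          have f2' := Int.floor_le ((3 * √(n : ℝ) - 9) * ((d' : ℝ) / 3 - i))
          have f3' := diff_eq √(n : ℝ) m d' i
          have : ((⌊3 * √(n : ℝ) * ((d : ℝ) / 3 - m - i)⌋ -
              ⌊(3 * √(n : ℝ) - 9) * ((d : ℝ) / 3 - i)⌋ : ℤ) : ℝ) <
              ((⌊3 * √(n : ℝ) * ((d' : ℝ) / 3 - m - i)⌋ -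
              ⌊(3 * √(n : ℝ) - 9) * ((d' : ℝ) / 3 - i)⌋ : ℤ) : ℝ) := by
            push_cast
            linarith
          exact (Int.cast_lt.1 this).le
        · intro i hi _
          unfold ix at hi
          rw [Finset.mem_filter] at hi
          have f3' := diff_eq √(n : ℝ) m d' i
          rw [sub_nonneg]
          apply Int.floor_mono
          linarith [hi.2]
      exact_mod_cast hc

end Pool.Agent.Helper27.UN.EMO
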