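import Pool.Agent.Helper79.UN.NGoals
import Pool.Agent.Helper79.UN.Lib

/-! # MP_57a173_lc: packet REC -/

namespace UN.PkREC

open Pool.Agent.Helper97.Ku NU UL

theorem iffV_self {L : Type} [CompleteBooleanAlgebra L] (a : L) : iffV a a = ⊤ := by
  unfold iffV
  rw [himp_self, inf_top_eq]

theorem rec_pf (cmp_ : U_CMP) (s2_ : U_S2) (ex2 : U_EX2) (sg : U_SG) : U_REC := by
  intro L _ K A S
  have hrl : ∀ n : ℕ, BSet.Ext (fun x : BSet L => rl A x n) :=
    (ex2 L PUnit (fun _ => ⊤) K A).1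
  have hmemP : ∀ (n : ℕ) (x : BSet L),
      x.mem (cmp K fun x => rl A x n) = x.mem K ⊓ rl A x n :=
    fun n x => (cmp_ L K).1 _ (hrl n) x
  refine ⟨?_, ?_, ?_⟩
  · intro n
    have h := (s2_ L K (fun x _ => rl A x n) (fun x => BSet.Ext.const _) (fun y => hrl n)).1
    refine top_le_iff.1 (le_iInf fun z => ?_)
    have e : z.mem (s2 K fun x _ => rl A x n) = ⨆ x : BSet L, ⨆ y : BSet L,
        (x.mem (cmp K fun x => rl A x n) ⊓ (y.mem K ⊓ prV z x y)) := by
      rw [h z]
      refine iSup_congr fun x => iSup_congr fun y => ?_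
      rw [hmemP]
      ac_rfl
    rw [e, iffV_self]
  · intro n
    have h := (s2_ L K (fun _ y => rl A y n) (fun x => hrl n) (fun y => BSet.Ext.const _)).1
    refine top_le_iff.1 (le_iInf fun z => ?_)
    have e : z.mem (s2 K fun _ y => rl A y n) = ⨆ x : BSet L, ⨆ y : BSet L,
        (x.mem K ⊓ (y.mem (cmp K fun x => rl A x n) ⊓ prV z x y)) := by
      rw [h z]
      refine iSup_congr fun x => iSup_congr fun y => ?_
      rw [hmemP]
      ac_rfl
    rw [e, iffV_self]
  · intro a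
    have hD := (s2_ L K (fun _ _ => ⊤) (fun _ => BSet.Ext.const _)
      (fun _ => BSet.Ext.const _)).1
    have hP := (s2_ L K (fun _ _ => a) (fun _ => BSet.Ext.const _)
      (fun _ => BSet.Ext.const _)).1
    generalize hDD : (s2 K fun _ _ => (⊤ : L)) = D at hD ⊢
    generalize hPP : (s2 K fun _ _ => a) = P at hP ⊢
    have hPD : ∀ z : BSet L, z.mem P = a ⊓ z.mem D := by
      intro z
      rw [hP z, hD z, inf_iSup_eq]
      refine iSup_congr fun x => ?_
      rw [inf_iSup_eq]
      refine iSup_congr fun y => ?_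
      rw [inf_top_eq]
      ac_rfl
    have hE : ∀ z : BSet L, z.mem (cmp D fun z => (z.mem D)ᶜ) = ⊥ := by
      intro z
      rw [(cmp_ L D).1 _ (BSet.Ext.compl (BSet.Ext.mem_left D)) z, inf_compl_eq_bot]
    have hmD : isSigV omN D S ≤ D.mem S := (sg L D S).1
    have hmE : isSigV omN D S ≤ (cmp D fun z => (z.mem D)ᶜ).mem S :=
      le_trans (le_inf le_rfl hmD) ((sg L D S).2.1 D)
    have h1 : a ≤ D.eq P := by
      rw [BSet.eq_iff_ext]
      refine le_iInf fun z => le_inf ?_ ?_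
      · rw [le_himp_iff, hPD]
      · rw [le_himp_iff, hPD]
        exact inf_le_right.trans inf_le_right
    have h2 : aᶜ ≤ (cmp D fun z => (z.mem D)ᶜ).eq P := by
      rw [BSet.eq_iff_ext]
      refine le_iInf fun z => le_inf ?_ ?_
      · rw [le_himp_iff, hE, inf_bot_eq]
        exact bot_le
      · rw [le_himp_iff, hPD, hE, ← inf_assoc, compl_inf_eq_bot, bot_inf_eq]
    have h3 : isSigV omN D S ⊓ a ≤ P.mem S := by
      refine le_trans ?_ (BSet.mem_congr_left D P S)
      exact le_inf (inf_le_right.trans h1) (inf_le_left.trans hmD)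
    have h4 : isSigV omN D S ⊓ aᶜ ≤ P.mem S := by
      refine le_trans ?_ (BSet.mem_congr_left (cmp D fun z => (z.mem D)ᶜ) P S)
      exact le_inf (inf_le_right.trans h2) (inf_le_left.trans hmE)
    calc isSigV omN D S = isSigV omN D S ⊓ (a ⊔ aᶜ) := by rw [sup_compl_eq_top, inf_top_eq]
      _ = isSigV omN D S ⊓ a ⊔ isSigV omN D S ⊓ aᶜ := inf_sup_left _ _ _
      _ ≤ P.mem S := sup_le h3 h4

end UN.PkREC
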